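import Mathlib

/-!
A twisted lexicographic embedding `φ` of the Cantor group into the real line, and its genericity
property with respect to affine forms over `ZMod 2`.
-/

open Set Filter Topology

namespace Q214.ENT

/-- the Cantor group -/
abbrev C : Type := ℕ → ZMod 2

/-- the digits below `n` which are equal to one -/
def node (n : ℕ) (y : C) : Finset ℕ := (Finset.range n).filter (fun k => y k = 1)

/-- the length used at level `N` -/
def len (N : ℕ) : ℕ := N.unpair.1.unpair.1

/-- the family of nodes used at level `N` -/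
def fam (N : ℕ) : Finset (Finset ℕ) :=
  (Encodable.decode (α := Finset (Finset ℕ)) N.unpair.1.unpair.2).getD ∅

theorem len_le (N : ℕ) : len N ≤ N :=
  (Nat.unpair_left_le _).trans (Nat.unpair_left_le _)

/-- the twist at level `N` -/
def twist (N : ℕ) (y : C) : ZMod 2 := if node (len N) y ∈ fam N then 1 else 0

theorem node_congr {n : ℕ} {y y' : C} (h : ∀ k < n, y k = y' k) : node n y = node n y' := by
  unfold node
  apply Finset.filter_congr
  intro k hk
  rw [h k (Finset.mem_range.1 hk)]

theorem twist_congr {N : ℕ} {y y' : C} (h : ∀ k < N, y k = y' k) : twist N y = twist N y' := by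
  unfold twist
  rw [node_congr (fun k hk => h k (hk.trans_le (len_le N)))]

/-- the twisted sequence -/
def tw (y : C) : ℕ → Bool := fun N => decide (y N + twist N y = 1)

theorem zmod2 (a : ZMod 2) : a = 0 ∨ a = 1 := by
  fin_cases a
  · left; rfl
  · right; rfl

theorem tw_lt {N : ℕ} {y y' : C} (h : ∀ k < N, y k = y' k) : ∀ k < N, tw y k = tw y' k := by
  intro k hk
  unfold tw
  rw [h k hk, twist_congr (fun j hj => h j (hj.trans hk))]

/-- the embedding into the reals -/
noncomputable def phi (y : C) : ℝ := Cardinal.cantorFunction (1 / 3) (tw y)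

theorem phi_lt_of {N : ℕ} {y y' : C} (h : ∀ k < N, y k = y' k) (h1 : tw y N = false)
    (h2 : tw y' N = true) : phi y < phi y' :=
  Cardinal.increasing_cantorFunction (by norm_num) (by norm_num) (tw_lt h) h1 h2

theorem phi_lt_of_zero {N : ℕ} {y y' : C} (h : ∀ k < N, y k = y' k) (h0 : y N = 0)
    (h1 : y' N = 1) (ht : twist N y = 0) : phi y < phi y' := by
  apply phi_lt_of h
  · unfold tw
    rw [h0, ht]
    decide
  · unfold tw
    rw [h1, ← twist_congr h, ht]
    decide

theorem phi_lt_of_one {N : ℕ} {y y' : C} (h : ∀ k < N, y k = y' k) (h0 : y N = 0)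
    (h1 : y' N = 1) (ht : twist N y = 1) : phi y' < phi y := by
  apply phi_lt_of (fun k hk => (h k hk).symm)
  · unfold tw
    rw [h1, ← twist_congr h, ht]
    decide
  · unfold tw
    rw [h0, ht]
    decide

theorem phi_injective : Function.Injective phi := by
  intro y y' h
  by_contra hne
  have hex : ∃ N, y N ≠ y' N := by
    by_contra hcon
    push Not at hcon
    exact hne (funext hcon)
  classical
  obtain ⟨N, hN, hmin⟩ : ∃ N, y N ≠ y' N ∧ ∀ k < N, y k = y' k :=
    ⟨Nat.find hex, Nat.find_spec hex, fun k hk => not_not.1 (Nat.find_min hex hk)⟩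
  have hlt : ∀ {u v : C}, (∀ k < N, u k = v k) → u N = 0 → v N = 1 → phi u ≠ phi v := by
    intro u v huv h0 h1
    rcases zmod2 (twist N u) with ht | ht
    · exact (phi_lt_of_zero huv h0 h1 ht).ne
    · exact (phi_lt_of_one huv h0 h1 ht).ne'
  rcases zmod2 (y N) with h0 | h0 <;> rcases zmod2 (y' N) with h1 | h1
  · exact hN (h0.trans h1.symm)
  · exact hlt hmin h0 h1 h
  · exact hlt (fun k hk => (hmin k hk).symm) h1 h0 h.symm
  · exact hN (h0.trans h1.symm)

theorem continuous_tw : Continuous tw := by
  rw [continuous_pi_iff]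
  intro N
  -- locally constant
  rw [continuous_discrete_rng]
  intro b
  rw [isOpen_iff_mem_nhds]
  intro y hy
  have h1 : {y' : C | ∀ k < N + 1, y' k = y k} ∈ 𝓝 y := by
    have : {y' : C | ∀ k < N + 1, y' k = y k} = ⋂ k ∈ Finset.range (N + 1), {y' : C | y' k = y k} := by
      ext y'
      simp
    rw [this]
    refine (Filter.biInter_finset_mem _).2 fun k _ => ?_
    have hc : Continuous (fun y' : C => y' k) := continuous_apply k
    exact ((isOpen_discrete ({y k} : Set (ZMod 2))).preimage hc).mem_nhds rfl
  refine Filter.mem_of_superset h1 ?_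
  intro y' hy'
  have : tw y' N = tw y N := tw_lt (N := N + 1) hy' N (Nat.lt_succ_self N)
  change tw y' N = b
  rw [this]
  exact hy

theorem continuous_phi : Continuous phi := by
  suffices h : Continuous (fun f : ℕ → Bool => Cardinal.cantorFunction (1 / 3) f) from
    h.comp continuous_tw
  unfold Cardinal.cantorFunction
  refine continuous_tsum (u := fun n => (1 / 3 : ℝ) ^ n) ?_ ?_ ?_
  · intro n
    have : (fun f : ℕ → Bool => Cardinal.cantorFunctionAux (1 / 3) f n) =
        (fun b : Bool => cond b ((1 / 3 : ℝ) ^ n) 0) ∘ (fun f : ℕ → Bool => f n) := rfl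
    rw [this]
    exact continuous_of_discreteTopology.comp (continuous_apply n)
  · exact summable_geometric_of_lt_one (by norm_num) (by norm_num)
  · intro n f
    unfold Cardinal.cantorFunctionAux
    rcases f n with _ | _
    · simp
    · simp

theorem isEmbedding_phi : IsEmbedding phi :=
  (continuous_phi.isClosedEmbedding phi_injective).isEmbedding

/-! ### Affine forms -/

/-- the affine form `∑_{j ∈ L} x_j + ∑_{j ∈ R} z_j` -/
def form (L R : Finset ℕ) (x z : ℕ → C) : C := ∑ j ∈ L, x j + ∑ j ∈ R, z j

theorem form_apply (L R : Finset ℕ) (x z : ℕ → C) (d : ℕ) :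
    form L R x z d = ∑ j ∈ L, x j d + ∑ j ∈ R, z j d := by
  simp [form, Finset.sum_apply]

theorem continuous_form (L R : Finset ℕ) : Continuous (fun p : (ℕ → C) × (ℕ → C) =>
    form L R p.1 p.2) := by
  unfold form
  fun_prop

/-- A basic neighbourhood in the space of sequences. -/
theorem exists_digits {B : Set (ℕ → C)} (hB : IsOpen B) {x0 : ℕ → C} (hx0 : x0 ∈ B) :
    ∃ n0 : ℕ, ∀ x : ℕ → C, (∀ j, ∀ d < n0, x j d = x0 j d) → x ∈ B := by
  by_contra hcon
  push Not at hcon
  choose x hx hxB using hcon
  have ht : Tendsto x atTop (𝓝 x0) := by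
    rw [tendsto_pi_nhds]
    intro j
    rw [tendsto_pi_nhds]
    intro d
    apply tendsto_nhds_of_eventually_eq
    filter_upwards [eventually_gt_atTop d] with n hn
    exact hx n j d hn
  obtain ⟨n, hn⟩ := (ht.eventually (hB.mem_nhds hx0)).exists
  exact hxB n hn

theorem sum_ite_single (L : Finset ℕ) (j : ℕ) :
    ∑ i ∈ L, (if i = j then (1 : ZMod 2) else 0) = if j ∈ L then 1 else 0 := by
  rw [Finset.sum_ite_eq' L j]

/-- Genericity of the twisted embedding. -/
theorem generic {k : ℕ} (L R : Fin k → Finset ℕ) (hL : ∀ i, (L i).Nonempty)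
    (hLR : ∀ i i', i ≠ i' → L i = L i' → R i ≠ R i')
    {B D : Set (ℕ → C)} (hB : IsOpen B) (hBn : B.Nonempty) (hD : IsOpen D) (hDn : D.Nonempty)
    (t : Fin k → Bool) :
    ∃ x ∈ B, ∃ x' ∈ B, ∃ z ∈ D, ∀ i,
      (t i = true → phi (form (L i) (R i) x z) < phi (form (L i) (R i) x' z)) ∧
      (t i = false → phi (form (L i) (R i) x' z) < phi (form (L i) (R i) x z)) := by
  classical
  obtain ⟨x0, hx0⟩ := hBn
  obtain ⟨z0, hz0⟩ := hDn
  obtain ⟨n1, hn1⟩ := exists_digits hB hx0
  obtain ⟨n2, hn2⟩ := exists_digits hD hz0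
  set n0 := max n1 n2 with hn0
  -- choice of separating coordinates
  have hsep : ∀ p : Fin k × Fin k, ∃ c : ℕ ⊕ ℕ, p.1 ≠ p.2 →
      (∃ j, c = Sum.inl j ∧ ¬ (j ∈ L p.1 ↔ j ∈ L p.2)) ∨
      (∃ j, c = Sum.inr j ∧ ¬ (j ∈ R p.1 ↔ j ∈ R p.2)) := by
    intro p
    by_cases hp : p.1 = p.2
    · exact ⟨Sum.inl 0, fun h => absurd hp h⟩
    · by_cases hLe : L p.1 = L p.2
      · have hRe := hLR _ _ hp hLe
        have : ∃ j, ¬ (j ∈ R p.1 ↔ j ∈ R p.2) := by
          by_contra hcon
          push Not at hcon
          exact hRe (Finset.ext hcon)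
        obtain ⟨j, hj⟩ := this
        exact ⟨Sum.inr j, fun _ => Or.inr ⟨j, rfl, hj⟩⟩
      · have : ∃ j, ¬ (j ∈ L p.1 ↔ j ∈ L p.2) := by
          by_contra hcon
          push Not at hcon
          exact hLe (Finset.ext hcon)
        obtain ⟨j, hj⟩ := this
        exact ⟨Sum.inl j, fun _ => Or.inl ⟨j, rfl, hj⟩⟩
  choose c hc using hsep
  let E : Fin k × Fin k ≃ Fin (k * k) := finProdFinEquiv
  -- the special digits
  let sp : ℕ → Option (ℕ ⊕ ℕ) := fun d =>
    if h : n0 ≤ d ∧ d - n0 < k * k then some (c (E.symm ⟨d - n0, h.2⟩)) else none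
  let x : ℕ → C := fun j d => if d < n0 then x0 j d else if sp d = some (Sum.inl j) then 1 else 0
  let z : ℕ → C := fun j d => if d < n0 then z0 j d else if sp d = some (Sum.inr j) then 1 else 0
  set n := n0 + k * k with hn
  have hxz : ∀ j d, n ≤ d → x j d = 0 ∧ z j d = 0 := by
    intro j d hd
    have h1 : sp d = none := by
      simp only [sp]
      rw [dif_neg]
      omega
    constructor
    · simp only [x]
      rw [if_neg (by omega), h1, if_neg (by simp)]
    · simp only [z]
      rw [if_neg (by omega), h1, if_neg (by simp)]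
  -- nodes are distinct
  have hnode : ∀ i i', i ≠ i' → node n (form (L i) (R i) x z) ≠ node n (form (L i') (R i') x z) := by
    intro i i' hii h
    set e := E (i, i') with he
    have hed : e.1 < k * k := e.2
    set d := n0 + e.1 with hd
    have hsp : sp d = some (c (i, i')) := by
      simp only [sp]
      rw [dif_pos (by omega)]
      have : (⟨d - n0, by omega⟩ : Fin (k * k)) = e := by
        apply Fin.ext
        simp only [hd]
        omega
      rw [this, he, Equiv.symm_apply_apply]
    have hdn : d ∈ Finset.range n := Finset.mem_range.2 (by omega)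
    have h1 : form (L i) (R i) x z d = 1 ↔ form (L i') (R i') x z d = 1 := by
      have h2 : d ∈ node n (form (L i) (R i) x z) ↔ d ∈ node n (form (L i') (R i') x z) := by
        rw [h]
      simpa [node, hdn, Finset.mem_filter, Finset.mem_range.1 hdn] using h2
    have hx : ∀ j, x j d = if sp d = some (Sum.inl j) then 1 else 0 := by
      intro j
      simp only [x]
      rw [if_neg (by omega)]
    have hz : ∀ j, z j d = if sp d = some (Sum.inr j) then 1 else 0 := by
      intro j
      simp only [z]
      rw [if_neg (by omega)]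
    rw [form_apply, form_apply] at h1
    simp only [hx, hz, hsp] at h1
    rcases hc (i, i') hii with ⟨j, hj, hj'⟩ | ⟨j, hj, hj'⟩
    · simp only [hj, Option.some.injEq, Sum.inl.injEq, reduceCtorEq, if_false,
        Finset.sum_const_zero, add_zero] at h1
      apply hj'
      simpa [eq_comm] using h1
    · simp only [hj, Option.some.injEq, Sum.inr.injEq, reduceCtorEq, if_false,
        Finset.sum_const_zero, zero_add] at h1
      apply hj'
      simpa [eq_comm] using h1
  -- the family of nodes
  let A : Finset (Finset ℕ) := (Finset.univ.filter (fun i : Fin k => t i = false)).image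
    (fun i => node n (form (L i) (R i) x z))
  have hA : ∀ i, node n (form (L i) (R i) x z) ∈ A ↔ t i = false := by
    intro i
    simp only [A, Finset.mem_image, Finset.mem_filter, Finset.mem_univ, true_and]
    constructor
    · rintro ⟨i', hi', h⟩
      by_cases hii : i' = i
      · rw [← hii]; exact hi'
      · exact absurd h (hnode i' i hii)
    · intro h
      exact ⟨i, h, rfl⟩
  -- the levels
  let c0 : ℕ := Nat.pair n (Encodable.encode A)
  let Nl : ℕ → ℕ := fun i => Nat.pair c0 i
  have hNlen : ∀ i, len (Nl i) = n := by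
    intro i
    simp [len, Nl, c0]
  have hNfam : ∀ i, fam (Nl i) = A := by
    intro i
    simp [fam, Nl, c0]
  have hNmono : StrictMono Nl := fun i j hij => Nat.pair_lt_pair_right c0 hij
  have hNge : ∀ i, n ≤ Nl i := fun i => by
    rw [← hNlen i]
    exact len_le _
  choose jj hjj using hL
  let x' : ℕ → C := fun j d => if ∃ i : Fin k, d = Nl i ∧ j = jj i then 1 else x j d
  have hx'lt : ∀ j d, d < n → x' j d = x j d := by
    intro j d hd
    simp only [x']
    rw [if_neg]
    rintro ⟨i, hi, -⟩
    have := hNge i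
    omega
  refine ⟨x, ?_, x', ?_, z, ?_, ?_⟩
  · apply hn1
    intro j d hd
    simp only [x]
    rw [if_pos (by omega)]
  · apply hn1
    intro j d hd
    rw [hx'lt j d (by omega)]
    simp only [x]
    rw [if_pos (by omega)]
  · apply hn2
    intro j d hd
    simp only [z]
    rw [if_pos (by omega)]
  intro i
  -- the first level where the forms differ
  have hex : ∃ a : ℕ, ∃ ha : a < k, jj ⟨a, ha⟩ ∈ L i := ⟨i.1, i.2, hjj i⟩
  set a := Nat.find hex with ha
  obtain ⟨hak, haL⟩ := Nat.find_spec hex
  have hmin : ∀ b < a, ∀ hb : b < k, jj ⟨b, hb⟩ ∉ L i := by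
    intro b hb hbk hmem
    exact Nat.find_min hex hb ⟨hbk, hmem⟩
  have hagree : ∀ d < Nl a, form (L i) (R i) x z d = form (L i) (R i) x' z d := by
    intro d hd
    rw [form_apply, form_apply]
    congr 1
    apply Finset.sum_congr rfl
    intro j hj
    simp only [x']
    rw [if_neg]
    rintro ⟨b, hb, hjb⟩
    have hba : b.1 < a := hNmono.lt_iff_lt.1 (hb ▸ hd)
    exact hmin b.1 hba b.2 (hjb ▸ hj)
  have hval : form (L i) (R i) x z (Nl a) = 0 := by
    rw [form_apply, Finset.sum_eq_zero, Finset.sum_eq_zero, add_zero]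
    · intro j _
      exact (hxz j _ (hNge a)).2
    · intro j _
      exact (hxz j _ (hNge a)).1
  have hval' : form (L i) (R i) x' z (Nl a) = 1 := by
    rw [form_apply]
    have h1 : ∀ j, x' j (Nl a) = if j = jj ⟨a, hak⟩ then 1 else 0 := by
      intro j
      simp only [x']
      by_cases hj : j = jj ⟨a, hak⟩
      · rw [if_pos ⟨⟨a, hak⟩, rfl, hj⟩, if_pos hj]
      · rw [if_neg, if_neg hj]
        · exact (hxz j _ (hNge a)).1
        · rintro ⟨b, hb, hjb⟩
          have hab : a = b.1 := hNmono.injective hb
          apply hj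
          rw [hjb]
          congr 1
          exact Fin.ext hab.symm
    simp only [h1]
    rw [sum_ite_single, if_pos haL, Finset.sum_eq_zero, add_zero]
    intro j _
    exact (hxz j _ (hNge a)).2
  constructor
  · intro ht
    apply phi_lt_of_zero hagree hval hval'
    unfold twist
    rw [hNlen, hNfam, if_neg]
    rw [hA, ht]
    simp
  · intro ht
    apply phi_lt_of_one hagree hval hval'
    unfold twist
    rw [hNlen, hNfam, if_pos]
    rw [hA]
    exact ht

end Q214.ENT
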