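import Mathlib
import Pool.Agent.H65R4.KU
import Pool.Agent.Q214.ENT.Twist

/-!
Transfinite sequences in the Cantor group which avoid meagre sets of finite tuples.
-/

open Set Filter Topology

namespace Q214.ENT

/-- prepend a point to a sequence -/
def cons (x : C) (y : ℕ → C) : ℕ → C
  | 0 => x
  | (n + 1) => y n

/-- `cons` as a homeomorphism -/
def consHomeo : C × (ℕ → C) ≃ₜ (ℕ → C) where
  toFun p := cons p.1 p.2
  invFun y := (y 0, fun n => y (n + 1))
  left_inv := fun _ => rfl
  right_inv := by
    intro y
    funext n
    cases n <;> rfl
  continuous_toFun := by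
    rw [continuous_pi_iff]
    intro n
    cases n with
    | zero => exact continuous_fst
    | succ n => exact (continuous_apply (A := fun _ : ℕ => C) n).comp continuous_snd
  continuous_invFun := by
    refine Continuous.prodMk (continuous_apply 0) ?_
    rw [continuous_pi_iff]
    intro n
    exact continuous_apply (n + 1)

/-- almost all sections of a meagre set are meagre -/
theorem meagre_section {M : Set (ℕ → C)} (hM : IsMeagre M) :
    ∀ᶠ x in residual C, IsMeagre {y | cons x y ∈ M} := by
  have h1 : IsMeagre (consHomeo ⁻¹' M) := by
    have h2 := consHomeo.symm.isInducing.isMeagre_image hM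
    rwa [Homeomorph.image_symm] at h2
  exact Pool.Agent.H65R4.ku_meagre h1

/-- append a sequence to a list -/
def app : List C → (ℕ → C) → (ℕ → C)
  | [], y => y
  | (x :: l), y => cons x (app l y)

/-- the section of a set at a finite list -/
def sec (M : Set (ℕ → C)) (l : List C) : Set (ℕ → C) := {y | app l y ∈ M}

theorem app_append (l l' : List C) (y : ℕ → C) : app (l ++ l') y = app l (app l' y) := by
  induction l with
  | nil => rfl
  | cons x l ih => simp only [List.cons_append, app, ih]

theorem app_lt (l : List C) (y : ℕ → C) (j : ℕ) (hj : j < l.length) : app l y j = l[j] := by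
  induction l generalizing j with
  | nil => exact absurd hj (by simp)
  | cons x l ih =>
    cases j with
    | zero => rfl
    | succ j =>
      have hj' : j < l.length := by simpa using hj
      change app l y j = _
      rw [ih j hj']
      simp

/-- **Existence of the sequence.** -/
theorem exists_seq {I : Type} [LinearOrder I] [WellFoundedLT I] (hI : ∀ i : I, (Iio i).Countable)
    (M : Option I → Set (ℕ → C)) (hM : ∀ j, IsMeagre (M j)) :
    ∃ e : I → C, ∀ (j : Option I) (l : List I), l.Pairwise (· < ·) →
      (∀ k ∈ j, ∀ i ∈ l, k < i) → IsMeagre (sec (M j) (l.map e)) := by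
  classical
  have step : ∀ (i : I) (prev : Iio i → C), ∃ x : C, ∀ (j : Option I) (_ : ∀ k ∈ j, k < i)
      (l : List (Iio i)), IsMeagre (sec (M j) (l.map prev)) →
      IsMeagre {y | cons x y ∈ sec (M j) (l.map prev)} := by
    intro i prev
    have : Countable (Iio i) := (hI i).to_subtype
    have hc : {j : Option I | ∀ k ∈ j, k < i}.Countable := by
      have : {j : Option I | ∀ k ∈ j, k < i} ⊆ insert none (some '' Iio i) := by
        intro j hj
        cases j with
        | none => exact Or.inl rfl
        | some k => exact Or.inr ⟨k, hj k rfl, rfl⟩
      exact (((hI i).image some).insert none).mono this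
    have h1 : ∀ᶠ x in residual C, ∀ j ∈ {j : Option I | ∀ k ∈ j, k < i},
        ∀ l : List (Iio i), IsMeagre (sec (M j) (l.map prev)) →
        IsMeagre {y | cons x y ∈ sec (M j) (l.map prev)} := by
      rw [eventually_countable_ball hc]
      intro j _
      rw [eventually_countable_forall]
      intro l
      by_cases hm : IsMeagre (sec (M j) (l.map prev))
      · filter_upwards [meagre_section hm] with x hx _
        exact hx
      · exact Eventually.of_forall fun x h => absurd h hm
    obtain ⟨x, hx⟩ := (dense_of_mem_residual h1).nonempty
    exact ⟨x, hx⟩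
  choose next hnext using step
  let e : I → C := WellFounded.fix (wellFounded_lt (α := I))
    (fun i prev => next i (fun k => prev k.1 k.2))
  have he : ∀ i, e i = next i (fun k => e k.1) := fun i =>
    WellFounded.fix_eq (wellFounded_lt (α := I)) _ i
  refine ⟨e, ?_⟩
  intro j l
  induction l using List.reverseRecOn with
  | nil =>
    intro _ _
    exact hM j
  | append_singleton l i ih =>
    intro hp hj
    rw [List.pairwise_append] at hp
    obtain ⟨hp1, -, hp2⟩ := hp
    have h1 : IsMeagre (sec (M j) (l.map e)) :=
      ih hp1 (fun k hk i' hi' => hj k hk i' (List.mem_append_left _ hi'))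
    have hlt : ∀ i' ∈ l, i' < i := fun i' hi' => hp2 i' hi' i (List.mem_singleton.2 rfl)
    -- the list as a list of predecessors
    let l' : List (Iio i) := l.attach.map (fun a => ⟨a.1, hlt a.1 a.2⟩)
    have hl' : l'.map (fun k => e k.1) = l.map e := by
      simp only [l', List.map_map]
      conv_rhs => rw [← List.attach_map_subtype_val l]
      rw [List.map_map]
      rfl
    have h2 := hnext i (fun k => e k.1) j
      (fun k hk => hj k hk i (List.mem_append_right _ (List.mem_singleton.2 rfl))) l'
      (by rw [hl']; exact h1)
    rw [hl', ← he i] at h2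
    have h3 : sec (M j) ((l ++ [i]).map e) = {y | cons (e i) y ∈ sec (M j) (l.map e)} := by
      ext y
      simp only [sec, mem_ofPred_eq, List.map_append, app_append]
      rfl
    rw [h3]
    exact h2

end Q214.ENT
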