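import Mathlib
import Pool.Agent.Q214.ENT.Seq

/-!
Combinatorics of uncountable families of finite sets of indices, and of positions in lists.
-/

open Set Filter Topology

namespace Q214.ENT

theorem exists_root {α I : Type} [DecidableEq I] (S : α → Finset I) :
    ∀ (n : ℕ) (R : Finset I) (F : Set α), ¬ F.Countable → (∀ ν ∈ F, R ⊆ S ν) →
      (∀ ν ∈ F, (S ν \ R).card ≤ n) →
      ∃ (R' : Finset I) (F' : Set α), F' ⊆ F ∧ ¬ F'.Countable ∧ (∀ ν ∈ F', R' ⊆ S ν) ∧
        ∀ ξ, ξ ∉ R' → {ν ∈ F' | ξ ∈ S ν}.Countable := by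
  intro n
  induction n with
  | zero =>
    intro R F hF hR hn
    refine ⟨R, F, Subset.rfl, hF, hR, ?_⟩
    intro ξ hξ
    have : {ν ∈ F | ξ ∈ S ν} = ∅ := by
      rw [eq_empty_iff_forall_notMem]
      rintro ν ⟨hν, hξν⟩
      have h1 : (S ν \ R) = ∅ := Finset.card_eq_zero.1 (Nat.le_zero.1 (hn ν hν))
      have h2 : ξ ∈ S ν \ R := Finset.mem_sdiff.2 ⟨hξν, hξ⟩
      rw [h1] at h2
      exact absurd h2 (Finset.notMem_empty _)
    rw [this]
    exact countable_empty
  | succ n ih =>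
    intro R F hF hR hn
    by_cases h : ∀ ξ, ξ ∉ R → {ν ∈ F | ξ ∈ S ν}.Countable
    · exact ⟨R, F, Subset.rfl, hF, hR, h⟩
    · push Not at h
      obtain ⟨ξ, hξR, hξ⟩ := h
      obtain ⟨R', F', h1, h2, h3, h4⟩ := ih (insert ξ R) {ν ∈ F | ξ ∈ S ν} hξ
        (fun ν hν => Finset.insert_subset hν.2 (hR ν hν.1)) (by
          intro ν hν
          have h5 : S ν \ insert ξ R = (S ν \ R).erase ξ := by
            ext a
            simp only [Finset.mem_sdiff, Finset.mem_insert, Finset.mem_erase]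
            tauto
          have h6 : ξ ∈ S ν \ R := Finset.mem_sdiff.2 ⟨hν.2, hξR⟩
          rw [h5, Finset.card_erase_of_mem h6]
          have := hn ν hν.1
          omega)
      exact ⟨R', F', h1.trans (sep_subset _ _), h2, h3, h4⟩

theorem exists_root' {α I : Type} [DecidableEq I] (S : α → Finset I) (F : Set α)
    (hF : ¬ F.Countable) :
    ∃ (R' : Finset I) (F' : Set α), F' ⊆ F ∧ ¬ F'.Countable ∧ (∀ ν ∈ F', R' ⊆ S ν) ∧
        ∀ ξ, ξ ∉ R' → {ν ∈ F' | ξ ∈ S ν}.Countable := by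
  have h : ∃ n : ℕ, ¬ {ν ∈ F | (S ν).card ≤ n}.Countable := by
    by_contra hcon
    push Not at hcon
    apply hF
    refine (countable_iUnion hcon).mono ?_
    intro ν hν
    exact mem_iUnion.2 ⟨(S ν).card, hν, le_rfl⟩
  obtain ⟨n, hn⟩ := h
  obtain ⟨R', F', h1, h2, h3, h4⟩ := exists_root S n ∅ _ hn (fun ν _ => Finset.empty_subset _)
    (fun ν hν => by rw [Finset.sdiff_empty]; exact hν.2)
  exact ⟨R', F', h1.trans (sep_subset _ _), h2, h3, h4⟩

theorem exists_shape {α I T : Type} [LinearOrder I] [Countable T] (S : α → Finset I)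
    (sh : α → T) (R : Finset I) (F : Set α) (hF : ¬ F.Countable)
    (hI : ∀ i : I, (Iic i).Countable) (hroot : ∀ ξ, ξ ∉ R → {ν ∈ F | ξ ∈ S ν}.Countable) :
    ∃ σ, ∀ η : I, ¬ {ν ∈ F | sh ν = σ ∧ ∀ ξ ∈ S ν \ R, η < ξ}.Countable := by
  by_contra hcon
  push Not at hcon
  choose η hη using hcon
  apply hF
  have h1 : (⋃ σ : T, ({ν ∈ F | sh ν = σ ∧ ∀ ξ ∈ S ν \ R, η σ < ξ} ∪
      ⋃ ξ ∈ Iic (η σ) \ (R : Set I), {ν ∈ F | ξ ∈ S ν})).Countable := by
    refine countable_iUnion fun σ => (hη σ).union ?_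
    refine ((hI (η σ)).mono sdiff_subset).biUnion fun ξ hξ => ?_
    exact hroot ξ (fun h => hξ.2 (Finset.mem_coe.2 h))
  refine h1.mono ?_
  intro ν hν
  refine mem_iUnion.2 ⟨sh ν, ?_⟩
  by_cases h : ∀ ξ ∈ S ν \ R, η (sh ν) < ξ
  · exact Or.inl ⟨hν, rfl, h⟩
  · push Not at h
    obtain ⟨ξ, hξ, hle⟩ := h
    rw [Finset.mem_sdiff] at hξ
    right
    exact mem_iUnion₂.2 ⟨ξ, ⟨hle, fun h => hξ.2 (Finset.mem_coe.1 h)⟩, hν, hξ.1⟩

/-- the positions in the list `u` occupied by elements of `s` -/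
def pos {I : Type} [DecidableEq I] (u : List I) (s : Finset I) : Finset ℕ :=
  (Finset.range u.length).filter (fun j => ∃ h : j < u.length, u[j] ∈ s)

theorem sum_pos {I : Type} [DecidableEq I] (u : List I) (hu : u.Nodup) (s : Finset I) (g : I → C)
    (y : ℕ → C) :
    ∑ j ∈ pos u s, app (u.map g) y j = ∑ ξ ∈ u.toFinset.filter (fun ξ => ξ ∈ s), g ξ := by
  refine Finset.sum_bij (fun j hj => u[j]'(by
    have := (Finset.mem_filter.1 hj).1
    exact Finset.mem_range.1 this)) ?_ ?_ ?_ ?_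
  · intro j hj
    obtain ⟨h1, h2, h3⟩ := Finset.mem_filter.1 hj
    exact Finset.mem_filter.2 ⟨List.mem_toFinset.2 (List.getElem_mem _), h3⟩
  · intro j hj j' hj' h
    exact (List.Nodup.getElem_inj_iff hu).1 h
  · intro ξ hξ
    obtain ⟨h1, h2⟩ := Finset.mem_filter.1 hξ
    obtain ⟨j, hj, hjξ⟩ := List.getElem_of_mem (List.mem_toFinset.1 h1)
    exact ⟨j, Finset.mem_filter.2 ⟨Finset.mem_range.2 hj, hj, by rw [hjξ]; exact h2⟩, hjξ⟩
  · intro j hj
    have hj' : j < u.length := Finset.mem_range.1 (Finset.mem_filter.1 hj).1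
    rw [app_lt (u.map g) y j (by simpa using hj')]
    simp

/-- Evaluation of the form attached to positions. -/
theorem form_pos {I : Type} [LinearOrder I] {S R s : Finset I} (hs : s ⊆ S)
    (g : I → C) (y y' : ℕ → C) :
    form (pos ((S \ R).sort (· ≤ ·)) s) (pos (R.sort (· ≤ ·)) s)
      (app (((S \ R).sort (· ≤ ·)).map g) y) (app ((R.sort (· ≤ ·)).map g) y') = ∑ ξ ∈ s, g ξ := by
  unfold form
  rw [sum_pos _ (Finset.sort_nodup _ _), sum_pos _ (Finset.sort_nodup _ _),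
    Finset.sort_toFinset, Finset.sort_toFinset, ← Finset.sum_union]
  · apply Finset.sum_congr _ (fun _ _ => rfl)
    ext a
    simp only [Finset.mem_union, Finset.mem_filter, Finset.mem_sdiff]
    constructor
    · rintro (⟨_, h⟩ | ⟨_, h⟩) <;> exact h
    · intro h
      by_cases ha : a ∈ R
      · exact Or.inr ⟨ha, h⟩
      · exact Or.inl ⟨⟨hs h, ha⟩, h⟩
  · rw [Finset.disjoint_left]
    intro a ha ha'
    simp only [Finset.mem_filter, Finset.mem_sdiff] at ha ha'
    exact ha.1.2 ha'.1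

/-- elements of the span are sums over finite sets of indices -/
theorem exists_support {I : Type} (e : I → C) {a : C} (ha : a ∈ Submodule.span (ZMod 2) (range e)) :
    ∃ s : Finset I, ∑ ξ ∈ s, e ξ = a := by
  obtain ⟨c, hc⟩ := (Finsupp.mem_span_range_iff_exists_finsupp).1 ha
  refine ⟨c.support, ?_⟩
  rw [← hc, Finsupp.sum]
  apply Finset.sum_congr rfl
  intro i hi
  rcases zmod2 (c i) with h | h
  · exact absurd h (Finsupp.mem_support_iff.1 hi)
  · rw [h, one_smul]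

end Q214.ENT
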